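import Mathlib
import Pool.Agent.Lib.MP_7da968_an.Limit

set_option autoImplicit false

open Filter Topology

namespace Pool.Agent.Results.MP_7da968_an.EverySeparableSpace

universe u

/-- Every separable infinite-dimensional complex Banach space carries a hypercyclic operator
whose direct sum with itself is not cyclic. -/
theorem result (X : Type u) [NormedAddCommGroup X] [NormedSpace ℂ X] [CompleteSpace X]
    [TopologicalSpace.SeparableSpace X] (hX : ¬ FiniteDimensional ℂ X) :
    ∃ T : X →L[ℂ] X,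
      (∃ x : X, Dense (Set.range fun n : ℕ => (T ^ n) x)) ∧
      ¬ ∃ z : X × X, Dense ((Submodule.span ℂ
        (Set.range fun n : ℕ => ((T.prodMap T) ^ n) z) : Submodule ℂ (X × X)) : Set (X × X)) := by
  obtain ⟨b⟩ := Pool.Agent.MP_7da968.exists_bio hX
  obtain ⟨K, B, M, hM, hdense, hbd, hadd, hsmul, hsymm, hKB, he0⟩ :=
    Pool.Agent.MP_7da968.exists_op b
  refine ⟨1 + K, ⟨b.e 0, hdense⟩, ?_⟩
  rintro ⟨⟨x, y⟩, hz⟩
  -- the form is self-adjoint for the operator
  have hadd' : ∀ u v v', B u (v + v') = B u v + B u v' := fun u v v' => by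
    rw [hsymm, hadd, hsymm v, hsymm v']
  have hT1 : ∀ u v, B ((1 + K) u) v = B u ((1 + K) v) := by
    intro u v
    have h1 : (1 + K) u = u + K u := rfl
    have h2 : (1 + K) v = v + K v := rfl
    rw [h1, h2, hadd, hadd', hKB]
  have hTn : ∀ (n : ℕ) u v, B (((1 + K) ^ n) u) v = B u (((1 + K) ^ n) v) := by
    intro n
    induction n with
    | zero => intro u v; rfl
    | succ n ih =>
      intro u v
      have h1 : ((1 + K) ^ (n + 1)) u = ((1 + K) ^ n) ((1 + K) u) := by rw [pow_succ]; rfl
      have h2 : ((1 + K) ^ (n + 1)) v = (1 + K) (((1 + K) ^ n) v) := by rw [pow_succ']; rfl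
      rw [h1, h2, ih, hT1]
  -- the functional attached to a vector
  let φ : X → (X →L[ℂ] ℂ) := fun v =>
    LinearMap.mkContinuous
      { toFun := fun u => B u v
        map_add' := fun u u' => hadd u u' v
        map_smul' := fun c u => hsmul c u v } (M * ‖v‖) (fun u => by
          have := hbd u v
          change ‖B u v‖ ≤ M * ‖v‖ * ‖u‖
          linarith)
  have hφ : ∀ v u, φ v u = B u v := fun v u => rfl
  -- the orbit of the pair
  have horb : ∀ n : ℕ, (((1 + K).prodMap (1 + K)) ^ n) (x, y) =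
      (((1 + K) ^ n) x, ((1 + K) ^ n) y) := by
    intro n
    induction n with
    | zero => rfl
    | succ n ih =>
      rw [pow_succ', pow_succ']
      change ((1 + K).prodMap (1 + K)) ((((1 + K).prodMap (1 + K)) ^ n) (x, y)) = _
      rw [ih]
      rfl
  -- a functional killing the orbit vanishes
  have hkill : ∀ ψ : X × X →L[ℂ] ℂ,
      (∀ n : ℕ, ψ (((1 + K) ^ n) x, ((1 + K) ^ n) y) = 0) → ∀ w, ψ w = 0 := by
    intro ψ hψ w
    have h1 : Set.EqOn ψ (fun _ => (0 : ℂ)) ((Submodule.span ℂ
        (Set.range fun n : ℕ => (((1 + K).prodMap (1 + K)) ^ n) (x, y)) :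
          Submodule ℂ (X × X)) : Set (X × X)) := by
      intro w hw
      have h2 : Submodule.span ℂ
          (Set.range fun n : ℕ => (((1 + K).prodMap (1 + K)) ^ n) (x, y)) ≤
          LinearMap.ker (ψ : X × X →ₗ[ℂ] ℂ) := by
        rw [Submodule.span_le]
        rintro _ ⟨n, rfl⟩
        change ψ ((((1 + K).prodMap (1 + K)) ^ n) (x, y)) = 0
        rw [horb]
        exact hψ n
      exact h2 hw
    have h3 := Continuous.ext_on hz ψ.continuous continuous_const h1
    exact congrFun h3 w
  let L : X × X →L[ℂ] ℂ := (φ y).comp (ContinuousLinearMap.fst ℂ X X) -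
    (φ x).comp (ContinuousLinearMap.snd ℂ X X)
  have hL : ∀ u v, L (u, v) = B u y - B v x := fun u v => rfl
  have hL0 : ∀ w, L w = 0 := by
    refine hkill L fun n => ?_
    rw [hL, hTn n y x, hsymm y, sub_self]
  have hx : ∀ u, B u x = 0 := by
    intro u
    have h0 : B (0 : X) y = 0 := by
      have := hsmul 0 0 y
      rwa [zero_smul, zero_mul] at this
    have := hL0 (0, u)
    rw [hL, h0, zero_sub, neg_eq_zero] at this
    exact this
  let ψ : X × X →L[ℂ] ℂ := (φ (b.e 0)).comp (ContinuousLinearMap.fst ℂ X X)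
  have hψ : ∀ u v, ψ (u, v) = B u (b.e 0) := fun u v => rfl
  have h1 := hkill ψ (fun n => by rw [hψ, hTn, hsymm, hx]) (b.e 0, 0)
  rw [hψ, he0] at h1
  exact one_ne_zero h1

end Pool.Agent.Results.MP_7da968_an.EverySeparableSpace
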